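import Mathlib
import Pool.Agent.Y772.ND.Stm

/-!
# Second and fourth moment argument (project ND of helper772, part MOM)

The lemmas `log_factorial` and `mertens_upper` are copied from `Pool/Agent/H370R2/NT.lean`.
-/

set_option autoImplicit false

open Complex MeasureTheory
open scoped ComplexConjugate

namespace Pool.Agent.Y876.ND

open Pool.Agent.Y772.ND

open ArithmeticFunction in
theorem log_factorial (N : ℕ) :
    Real.log (N.factorial : ℝ) = ∑ d ∈ Finset.Icc 1 N, vonMangoldt d * ((N / d : ℕ) : ℝ) := by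
  have h1 : Real.log (N.factorial : ℝ) = ∑ n ∈ Finset.Ioc 0 N, Real.log n := by
    induction N with
    | zero => simp
    | succ N ih =>
      rw [Nat.factorial_succ, Finset.sum_Ioc_succ_top (Nat.zero_le _), ← ih]
      push_cast
      rw [Real.log_mul (by positivity) (by exact_mod_cast N.factorial_ne_zero), add_comm]
  have h2 := sum_Ioc_mul_zeta_eq_sum (R := ℝ) vonMangoldt N
  rw [vonMangoldt_mul_zeta] at h2
  rw [h1, show Finset.Icc 1 N = Finset.Ioc 0 N from rfl]
  simpa using h2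

theorem mertens_upper (N : ℕ) (hN : 1 ≤ N) :
    ∑ d ∈ Finset.Icc 1 N, ArithmeticFunction.vonMangoldt d / d ≤ Real.log N + 6 := by
  have hN' : (0 : ℝ) < N := by exact_mod_cast hN
  have hN1 : (1 : ℝ) ≤ N := by exact_mod_cast hN
  have hup : Real.log (N.factorial : ℝ) ≤ N * Real.log N := by
    rw [← Real.log_pow]
    apply Real.log_le_log
    · exact_mod_cast N.factorial_pos
    · exact_mod_cast N.factorial_le_pow
  have hpsi : ∑ d ∈ Finset.Icc 1 N, ArithmeticFunction.vonMangoldt d ≤ 6 * N := by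
    have h := Chebyshev.psi_le_const_mul_self (x := (N : ℝ)) hN'.le
    rw [Chebyshev.psi, Nat.floor_natCast] at h
    have h3 : Real.log 4 ≤ 2 := by
      have : Real.log 4 = 2 * Real.log 2 := by
        rw [show (4 : ℝ) = 2 ^ 2 by norm_num, Real.log_pow]; norm_num
      have := Real.log_two_lt_d9
      linarith
    have h4 : (Real.log 4 + 4) * N ≤ 6 * N := mul_le_mul_of_nonneg_right (by linarith) hN'.le
    exact le_trans (le_of_eq rfl) (h.trans h4)
  have h2 : N * ∑ d ∈ Finset.Icc 1 N, ArithmeticFunction.vonMangoldt d / d -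
      ∑ d ∈ Finset.Icc 1 N, ArithmeticFunction.vonMangoldt d ≤ Real.log (N.factorial : ℝ) := by
    rw [log_factorial, Finset.mul_sum, ← Finset.sum_sub_distrib]
    refine Finset.sum_le_sum fun d hd => ?_
    have hd0 : (0 : ℝ) < d := by exact_mod_cast (Finset.mem_Icc.1 hd).1
    have h3 : (N : ℝ) / d - 1 ≤ ((N / d : ℕ) : ℝ) := by
      have h6 : (N : ℝ) / d < ((N / d : ℕ) : ℝ) + 1 := by
        rw [← Nat.floor_div_eq_div (K := ℝ)]
        exact Nat.lt_floor_add_one _
      linarith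
    have h4 : 0 ≤ ArithmeticFunction.vonMangoldt d := ArithmeticFunction.vonMangoldt_nonneg
    calc N * (ArithmeticFunction.vonMangoldt d / d) - ArithmeticFunction.vonMangoldt d
        = ArithmeticFunction.vonMangoldt d * (N / d - 1) := by ring
      _ ≤ ArithmeticFunction.vonMangoldt d * ((N / d : ℕ) : ℝ) := mul_le_mul_of_nonneg_left h3 h4
  have h3 : N * ∑ d ∈ Finset.Icc 1 N, ArithmeticFunction.vonMangoldt d / d ≤
      N * (Real.log N + 6) := by
    have : N * (Real.log N + 6) = N * Real.log N + 6 * N := by ring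
    linarith
  exact le_of_mul_le_mul_left h3 hN'

/-! ### Oscillating integrals -/

theorem osc {a : ℝ} (ha : a ≠ 0) (T : ℝ) :
    ‖∫ s in T..(2 * T), cexp (-(I * s * a))‖ ≤ 2 / |a| := by
  have hc : (-(I * a) : ℂ) ≠ 0 := by simp [ha]
  have h1 : ∀ s : ℝ, cexp (-(I * s * a)) = cexp ((-(I * a)) * s) := fun s => by
    congr 1; ring
  simp_rw [h1]
  rw [integral_exp_mul_complex hc, norm_div]
  have h2 : ‖(-(I * a) : ℂ)‖ = |a| := by simp
  rw [h2]
  apply div_le_div_of_nonneg_right _ (abs_nonneg a)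
  have h3 : ∀ t : ℝ, ‖cexp (-(I * a) * t)‖ = 1 := fun t => by
    rw [Complex.norm_exp]; simp
  calc ‖cexp (-(I * a) * ((2 * T : ℝ) : ℂ)) - cexp (-(I * a) * (T : ℂ))‖
      ≤ ‖cexp (-(I * a) * ((2 * T : ℝ) : ℂ))‖ + ‖cexp (-(I * a) * (T : ℂ))‖ := norm_sub_le _ _
    _ = 2 := by rw [h3, h3]; norm_num

theorem osc0 (T : ℝ) : ∫ s in T..(2 * T), cexp (-(I * s * ((0 : ℝ) : ℂ))) = T := by
  simp only [ofReal_zero, mul_zero, neg_zero, Complex.exp_zero, intervalIntegral.integral_const]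
  simp
  ring

theorem log_gap {a b M : ℕ} (ha : 1 ≤ a) (haM : a ≤ M) (hb : 1 ≤ b) (hbM : b ≤ M)
    (hab : a ≠ b) : 2 / |Real.log a - Real.log b| ≤ 2 * M := by
  wlog h : a < b generalizing a b
  · rw [abs_sub_comm]
    exact this hb hbM ha haM hab.symm (by omega)
  have ha' : (0 : ℝ) < a := by exact_mod_cast ha
  have hb' : (0 : ℝ) < b := by exact_mod_cast hb
  have hM' : (0 : ℝ) < M := by exact_mod_cast (hb.trans hbM)
  have h1 : Real.log (a / b) ≤ a / b - 1 := Real.log_le_sub_one_of_pos (by positivity)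
  rw [Real.log_div ha'.ne' hb'.ne'] at h1
  have h2 : (a : ℝ) + 1 ≤ b := by exact_mod_cast h
  have h3 : (b : ℝ) ≤ M := by exact_mod_cast hbM
  have h4 : (1 : ℝ) / M ≤ 1 - a / b := by
    have h5 : (1 : ℝ) / M ≤ 1 / b := one_div_le_one_div_of_le hb' h3
    have h6 : (1 : ℝ) - a / b = (b - a) / b := by field_simp
    have h7 : (1 : ℝ) / b ≤ (b - a) / b := div_le_div_of_nonneg_right (by linarith) hb'.le
    linarith
  have h5 : 1 / (M : ℝ) ≤ |Real.log a - Real.log b| := by
    rw [abs_sub_comm]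
    refine le_trans ?_ (le_abs_self _)
    linarith
  have h6 : 0 < |Real.log a - Real.log b| := lt_of_lt_of_le (by positivity) h5
  rw [div_le_iff₀ h6]
  have h7 : 2 * (M : ℝ) * (1 / M) ≤ 2 * M * |Real.log a - Real.log b| :=
    mul_le_mul_of_nonneg_left h5 (by positivity)
  have h8 : 2 * (M : ℝ) * (1 / M) = 2 := by field_simp
  linarith

theorem bil {ι : Type} (S : Finset ι) (c c' : ι → ℂ) (J : ι → ι → ℂ) (B : ℝ)
    (hJ : ∀ i ∈ S, ∀ j ∈ S, ‖J i j‖ ≤ B) :
    ‖∑ i ∈ S, ∑ j ∈ S, c i * c' j * J i j‖ ≤ B * ((∑ i ∈ S, ‖c i‖) * (∑ j ∈ S, ‖c' j‖)) := by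
  rw [Finset.sum_mul_sum, Finset.mul_sum]
  refine (norm_sum_le _ _).trans (Finset.sum_le_sum fun i hi => ?_)
  rw [Finset.mul_sum]
  refine (norm_sum_le _ _).trans (Finset.sum_le_sum fun j hj => ?_)
  rw [norm_mul, norm_mul]
  have h1 := mul_le_mul_of_nonneg_left (hJ i hi j hj)
    (mul_nonneg (norm_nonneg (c i)) (norm_nonneg (c' j)))
  linarith

theorem cont_exp (a : ℝ) : Continuous fun s : ℝ => cexp (-(I * s * a)) := by fun_prop

/-- the integral of a product of two exponential sums -/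
theorem int_prod {ι : Type} (S : Finset ι) (c c' : ι → ℂ) (f f' : ι → ℝ) (T : ℝ) :
    ∫ s in T..(2 * T), (∑ i ∈ S, c i * cexp (-(I * s * f i))) *
      (∑ i ∈ S, c' i * cexp (-(I * s * f' i))) =
    ∑ i ∈ S, ∑ j ∈ S, c i * c' j * ∫ s in T..(2 * T), cexp (-(I * s * ((f i + f' j : ℝ) : ℂ))) := by
  have h1 : ∀ s : ℝ, (∑ i ∈ S, c i * cexp (-(I * s * f i))) *
      (∑ i ∈ S, c' i * cexp (-(I * s * f' i))) =
      ∑ i ∈ S, ∑ j ∈ S, c i * c' j * cexp (-(I * s * ((f i + f' j : ℝ) : ℂ))) := by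
    intro s
    rw [Finset.sum_mul_sum]
    refine Finset.sum_congr rfl fun i _ => Finset.sum_congr rfl fun j _ => ?_
    have : cexp (-(I * s * ((f i + f' j : ℝ) : ℂ))) =
        cexp (-(I * s * f i)) * cexp (-(I * s * f' j)) := by
      rw [← Complex.exp_add]; congr 1; push_cast; ring
    rw [this]; ring
  simp_rw [h1]
  rw [intervalIntegral.integral_finset_sum]
  · refine Finset.sum_congr rfl fun i _ => ?_
    rw [intervalIntegral.integral_finset_sum]
    · refine Finset.sum_congr rfl fun j _ => ?_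
      rw [intervalIntegral.integral_const_mul]
    · intro j _
      exact (continuous_const.mul (cont_exp _)).intervalIntegrable _ _
  · intro i _
    exact (continuous_finset_sum _ fun j _ =>
      continuous_const.mul (cont_exp _)).intervalIntegrable _ _

theorem conj_sum {ι : Type} (S : Finset ι) (c : ι → ℂ) (f : ι → ℝ) (s : ℝ) :
    conj (∑ i ∈ S, c i * cexp (-(I * s * f i))) =
      ∑ i ∈ S, conj (c i) * cexp (-(I * s * ((-f i : ℝ) : ℂ))) := by
  rw [map_sum]
  refine Finset.sum_congr rfl fun i _ => ?_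
  rw [map_mul, ← Complex.exp_conj]
  congr 2
  simp

theorem cont_sum {ι : Type} (S : Finset ι) (c : ι → ℂ) (f : ι → ℝ) :
    Continuous fun s : ℝ => ∑ i ∈ S, c i * cexp (-(I * s * f i)) :=
  continuous_finset_sum _ fun j _ => continuous_const.mul (cont_exp _)

/-- mean value inequality -/
theorem mv {ι : Type} (S : Finset ι) (c : ι → ℂ) (f : ι → ℕ) (M : ℕ)
    (hf : ∀ i ∈ S, 1 ≤ f i ∧ f i ≤ M) (T : ℝ) :
    |(∫ s in T..(2 * T), ‖∑ i ∈ S, c i * cexp (-(I * s * Real.log (f i)))‖ ^ 2) -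
      T * ∑ i ∈ S, ∑ j ∈ S, (if f i = f j then (c i * conj (c j)).re else 0)| ≤
      2 * M * (∑ i ∈ S, ‖c i‖) ^ 2 := by
  set J : ι → ι → ℂ := fun i j => ∫ s in T..(2 * T),
    cexp (-(I * s * ((Real.log (f i) + -Real.log (f j) : ℝ) : ℂ))) with hJ
  have h1 : ((∫ s in T..(2 * T), ‖∑ i ∈ S, c i * cexp (-(I * s * Real.log (f i)))‖ ^ 2 : ℝ) : ℂ) =
      ∑ i ∈ S, ∑ j ∈ S, c i * conj (c j) * J i j := by
    rw [← intervalIntegral.integral_ofReal]
    rw [← int_prod S c (fun j => conj (c j)) (fun i => Real.log (f i)) (fun i => -Real.log (f i)) T]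
    congr 1
    funext s
    rw [← conj_sum S c (fun i => Real.log (f i)) s, Complex.mul_conj, Complex.normSq_eq_norm_sq]
  have h2 : (((∫ s in T..(2 * T), ‖∑ i ∈ S, c i * cexp (-(I * s * Real.log (f i)))‖ ^ 2) -
      T * ∑ i ∈ S, ∑ j ∈ S, (if f i = f j then (c i * conj (c j)).re else 0) : ℝ)) =
      (∑ i ∈ S, ∑ j ∈ S, c i * conj (c j) * (J i j - if f i = f j then (T : ℂ) else 0)).re := by
    have h3 : (∫ s in T..(2 * T), ‖∑ i ∈ S, c i * cexp (-(I * s * Real.log (f i)))‖ ^ 2) =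
        (∑ i ∈ S, ∑ j ∈ S, c i * conj (c j) * J i j).re := by
      rw [← h1, Complex.ofReal_re]
    rw [h3]
    simp only [Complex.re_sum, Finset.mul_sum, ← Finset.sum_sub_distrib]
    refine Finset.sum_congr rfl fun i _ => Finset.sum_congr rfl fun j _ => ?_
    rw [mul_sub, Complex.sub_re]
    congr 1
    split_ifs
    · rw [mul_comm, Complex.mul_re (c i * conj (c j))]
      simp
    · simp
  rw [h2]
  refine (Complex.abs_re_le_norm _).trans ?_
  have h4 := bil S c (fun j => conj (c j)) (fun i j => J i j - if f i = f j then (T : ℂ) else 0)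
    (2 * M) ?_
  · refine h4.trans (le_of_eq ?_)
    simp only [Complex.norm_conj]
    ring
  · intro i hi j hj
    by_cases h : f i = f j
    · simp only [h, if_true, hJ]
      have : Real.log (f j) + -Real.log (f j) = 0 := by ring
      rw [this, osc0, sub_self, norm_zero]
      positivity
    · simp only [h, if_false, sub_zero, hJ]
      have h5 : Real.log (f i) + -Real.log (f j) ≠ 0 := by
        intro h6
        apply h
        have h7 : Real.log (f i) = Real.log (f j) := by linarith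
        have h8 := Real.log_injOn_pos (Set.mem_Ioi.2 (by exact_mod_cast (hf i hi).1 : (0:ℝ) < f i))
          (Set.mem_Ioi.2 (by exact_mod_cast (hf j hj).1 : (0:ℝ) < f j)) h7
        exact_mod_cast h8
      refine (osc h5 T).trans ?_
      rw [← sub_eq_add_neg]
      exact log_gap (hf i hi).1 (hf i hi).2 (hf j hj).1 (hf j hj).2 h

/-! ### Second moment -/

theorem second (N : ℕ) (hN : 1 ≤ N) (d : ℕ → ℂ) (hd : (d 1).im = 0) (T : ℝ)
    (hT : 12 * (N : ℝ) ^ 2 ≤ T) :
    T / 4 * ∑ n ∈ Finset.Icc 1 N, ‖d n‖ ^ 2 ≤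
      ∫ s in T..(2 * T), (∑ n ∈ Finset.Icc 1 N, d n * cexp (-(I * s * Real.log n))).re ^ 2 := by
  have hN1 : (1 : ℝ) ≤ N := by exact_mod_cast hN
  have hT0 : 0 ≤ T := le_trans (by positivity) hT
  set S := Finset.Icc 1 N with hS
  set P : ℝ → ℂ := fun s => ∑ n ∈ S, d n * cexp (-(I * s * Real.log n)) with hP
  have hPc : Continuous P := cont_sum S d fun n => Real.log n
  have h1 : ∀ s, (P s).re ^ 2 = (‖P s‖ ^ 2 + (P s * P s).re) / 2 := by
    intro s
    rw [← Complex.normSq_eq_norm_sq, Complex.normSq_apply, Complex.mul_re]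
    ring
  have h2 : ∫ s in T..(2 * T), (P s).re ^ 2 =
      ((∫ s in T..(2 * T), ‖P s‖ ^ 2) + (∫ s in T..(2 * T), P s * P s).re) / 2 := by
    simp_rw [h1]
    rw [intervalIntegral.integral_div, intervalIntegral.integral_add]
    · congr 2
      have h3 := (Complex.reCLM).intervalIntegral_comp_comm
        ((hPc.mul hPc).intervalIntegrable (μ := volume) T (2 * T))
      simpa using h3
    · exact ((hPc.norm).pow 2).intervalIntegrable _ _
    · exact (Complex.continuous_re.comp (hPc.mul hPc)).intervalIntegrable _ _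
  have h3 := mv S d (fun n => n) N (fun i hi => Finset.mem_Icc.1 hi) T
  have h4 : ∑ i ∈ S, ∑ j ∈ S, (if i = j then (d i * conj (d j)).re else 0) =
      ∑ n ∈ S, ‖d n‖ ^ 2 := by
    refine Finset.sum_congr rfl fun i hi => ?_
    rw [Finset.sum_ite_eq, if_pos hi, Complex.mul_conj, Complex.normSq_eq_norm_sq,
      Complex.ofReal_re]
  rw [h4] at h3
  have h5 := (abs_le.1 h3).1
  have h6 : (∫ s in T..(2 * T), P s * P s) = ∑ i ∈ S, ∑ j ∈ S, d i * d j *
      ∫ s in T..(2 * T), cexp (-(I * s * ((Real.log i + Real.log j : ℝ) : ℂ))) :=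
    int_prod S d d (fun n => Real.log n) (fun n => Real.log n) T
  set J : ℕ → ℕ → ℂ := fun i j =>
    ∫ s in T..(2 * T), cexp (-(I * s * ((Real.log i + Real.log j : ℝ) : ℂ))) with hJ
  have h1S : 1 ∈ S := Finset.mem_Icc.2 ⟨le_rfl, hN⟩
  have h7 : (∑ i ∈ S, ∑ j ∈ S, d i * d j * J i j) =
      (∑ i ∈ S, ∑ j ∈ S, d i * d j * (J i j - if i = 1 ∧ j = 1 then (T : ℂ) else 0)) +
        d 1 * d 1 * T := by
    have h8 : (∑ i ∈ S, ∑ j ∈ S, d i * d j * (if i = 1 ∧ j = 1 then (T : ℂ) else 0)) =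
        d 1 * d 1 * T := by
      rw [Finset.sum_eq_single 1, Finset.sum_eq_single 1]
      · simp
      · intro b _ hb; simp [hb]
      · intro h; exact absurd h1S h
      · intro b _ hb; simp [hb]
      · intro h; exact absurd h1S h
    rw [← h8, ← Finset.sum_add_distrib]
    refine Finset.sum_congr rfl fun i _ => ?_
    rw [← Finset.sum_add_distrib]
    refine Finset.sum_congr rfl fun j _ => ?_
    ring
  have h9 : ‖∑ i ∈ S, ∑ j ∈ S, d i * d j * (J i j - if i = 1 ∧ j = 1 then (T : ℂ) else 0)‖ ≤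
      3 * ((∑ i ∈ S, ‖d i‖) * (∑ i ∈ S, ‖d i‖)) := by
    apply bil
    intro i hi j hj
    have hi1 := (Finset.mem_Icc.1 hi).1
    have hj1 := (Finset.mem_Icc.1 hj).1
    by_cases h : i = 1 ∧ j = 1
    · simp only [h, and_self, if_true, hJ]
      have : Real.log ((1 : ℕ) : ℝ) + Real.log ((1 : ℕ) : ℝ) = 0 := by simp
      rw [this, osc0, sub_self, norm_zero]
      norm_num
    · rw [if_neg h, sub_zero]
      have hij : 2 ≤ i * j := by
        by_contra hlt
        have h10 : i * j = 1 := by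
          have := Nat.mul_pos hi1 hj1
          omega
        exact h ⟨Nat.dvd_one.1 ⟨j, h10.symm⟩, Nat.dvd_one.1 ⟨i, by rw [mul_comm]; exact h10.symm⟩⟩
      have hlog : Real.log 2 ≤ Real.log i + Real.log j := by
        rw [← Real.log_mul (by positivity) (by positivity)]
        apply Real.log_le_log (by norm_num)
        exact_mod_cast hij
      have hl2 := Real.log_two_gt_d9
      have hpos : 0 < Real.log i + Real.log j := by linarith
      refine (osc hpos.ne' T).trans ?_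
      rw [abs_of_pos hpos, div_le_iff₀ hpos]
      linarith
  have h10 : -(3 * ((∑ i ∈ S, ‖d i‖) * (∑ i ∈ S, ‖d i‖))) ≤
      (∑ i ∈ S, ∑ j ∈ S, d i * d j * (J i j - if i = 1 ∧ j = 1 then (T : ℂ) else 0)).re := by
    have := (abs_le.1 ((Complex.abs_re_le_norm _).trans h9)).1
    exact this
  have h11 : 0 ≤ (d 1 * d 1 * T).re := by
    simp only [Complex.mul_re, Complex.mul_im, hd, Complex.ofReal_re, Complex.ofReal_im]
    have := mul_nonneg (mul_self_nonneg (d 1).re) hT0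
    nlinarith
  have h12 : -(3 * ((∑ i ∈ S, ‖d i‖) * (∑ i ∈ S, ‖d i‖))) ≤
      (∫ s in T..(2 * T), P s * P s).re := by
    rw [h6, h7, Complex.add_re]
    linarith
  have hcs : (∑ i ∈ S, ‖d i‖) ^ 2 ≤ N * ∑ i ∈ S, ‖d i‖ ^ 2 := by
    have := sq_sum_le_card_mul_sum_sq (s := S) (f := fun i => ‖d i‖)
    have hcard : (S.card : ℝ) = N := by rw [hS, Nat.card_Icc]; push_cast; simp
    rw [hcard] at this
    exact this
  have hD : 0 ≤ ∑ i ∈ S, ‖d i‖ ^ 2 := Finset.sum_nonneg fun i _ => by positivity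
  rw [h2]
  set D := ∑ i ∈ S, ‖d i‖ ^ 2 with hDd
  set A := ∑ i ∈ S, ‖d i‖ with hA
  have e1 : (2 * (N : ℝ) + 3) * A ^ 2 ≤ (2 * N + 3) * (N * D) :=
    mul_le_mul_of_nonneg_left hcs (by positivity)
  have e2 : (2 * (N : ℝ) + 3) * (N * D) ≤ 6 * N ^ 2 * D := by
    have : (2 * (N : ℝ) + 3) * N ≤ 6 * N ^ 2 := by nlinarith
    calc (2 * (N : ℝ) + 3) * (N * D) = ((2 * N + 3) * N) * D := by ring
      _ ≤ _ := mul_le_mul_of_nonneg_right this hD
  have e3 : 12 * (N : ℝ) ^ 2 * D ≤ T * D := mul_le_mul_of_nonneg_right hT hD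
  have h5' : -(2 * N * A ^ 2) ≤ (∫ s in T..(2 * T), ‖P s‖ ^ 2) - T * D := h5
  nlinarith

/-! ### Fourth moment -/

theorem vm_le {a N : ℕ} (ha : a ≤ N) (ha1 : 1 ≤ a) :
    ArithmeticFunction.vonMangoldt a ≤ Real.log N :=
  ArithmeticFunction.vonMangoldt_le_log.trans
    (Real.log_le_log (by exact_mod_cast ha1) (by exact_mod_cast ha))

/-- the sum over the factorizations of `k` -/
theorem fact_sum (S : Finset ℕ) (k : ℕ) (hk : 1 ≤ k) :
    ∑ q ∈ (S ×ˢ S).filter (fun q => q.1 * q.2 = k), ArithmeticFunction.vonMangoldt q.1 ≤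
      Real.log k := by
  rw [← ArithmeticFunction.vonMangoldt_sum]
  have hinj : Set.InjOn Prod.fst
      (((S ×ˢ S).filter (fun q => q.1 * q.2 = k) : Finset (ℕ × ℕ)) : Set (ℕ × ℕ)) := by
    intro p hp q hq hpq
    simp only [Finset.coe_filter, Set.mem_setOf_eq] at hp hq
    have hp1 : 0 < p.1 := Nat.pos_of_ne_zero fun h => by
      have := hp.2
      rw [h, zero_mul] at this
      omega
    apply Prod.ext hpq
    have h1 : p.1 * p.2 = p.1 * q.2 := by rw [hp.2, hpq, hq.2]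
    exact Nat.eq_of_mul_eq_mul_left hp1 h1
  rw [← Finset.sum_image (f := fun a => ArithmeticFunction.vonMangoldt a) hinj]
  apply Finset.sum_le_sum_of_subset_of_nonneg
  · intro a ha
    obtain ⟨q, hq, rfl⟩ := Finset.mem_image.1 ha
    rw [Nat.mem_divisors]
    exact ⟨⟨q.2, (Finset.mem_filter.1 hq).2.symm⟩, by omega⟩
  · intro a _ _
    exact ArithmeticFunction.vonMangoldt_nonneg

theorem fourth (N : ℕ) (hN : 1 ≤ N) (d : ℕ → ℂ) (C0 L T : ℝ) (hC0 : 1 ≤ C0) (hL : 1 ≤ L)
    (hNL : (N : ℝ) ≤ Real.exp (2 * L)) (hT : Real.exp (20 * L) ≤ T)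
    (hd : ∀ n, 2 ≤ n → ‖d n‖ ≤ C0 * ArithmeticFunction.vonMangoldt n / (L * Real.sqrt n)) :
    ∫ s in T..(2 * T), ‖∑ n ∈ Finset.Icc 2 N, d n * cexp (-(I * s * Real.log n))‖ ^ 4 ≤
      544 * C0 ^ 4 * T := by
  have hN1 : (1 : ℝ) ≤ N := by exact_mod_cast hN
  have hT0 : 0 < T := lt_of_lt_of_le (Real.exp_pos _) hT
  have hL0 : 0 < L := by linarith
  have hlogN : Real.log N ≤ 2 * L := by
    rw [Real.log_le_iff_le_exp (by linarith)]
    exact hNL
  have hlogN0 : 0 ≤ Real.log N := Real.log_nonneg hN1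
  set S := Finset.Icc 2 N with hS
  have hmem : ∀ a ∈ S, 2 ≤ a ∧ a ≤ N := fun a ha => Finset.mem_Icc.1 ha
  set v : ℕ → ℝ := fun a => ArithmeticFunction.vonMangoldt a with hv
  have hv0 : ∀ a, 0 ≤ v a := fun a => ArithmeticFunction.vonMangoldt_nonneg
  set c : ℕ × ℕ → ℂ := fun p => d p.1 * d p.2 with hc
  have hsq : ∀ s : ℝ, ‖∑ n ∈ S, d n * cexp (-(I * s * Real.log n))‖ ^ 4 =
      ‖∑ p ∈ S ×ˢ S, c p * cexp (-(I * s * Real.log ((p.1 * p.2 : ℕ) : ℝ)))‖ ^ 2 := by
    intro s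
    have h1 : ∑ p ∈ S ×ˢ S, c p * cexp (-(I * s * Real.log ((p.1 * p.2 : ℕ) : ℝ))) =
        (∑ n ∈ S, d n * cexp (-(I * s * Real.log n))) *
        (∑ n ∈ S, d n * cexp (-(I * s * Real.log n))) := by
      rw [Finset.sum_mul_sum, Finset.sum_product]
      refine Finset.sum_congr rfl fun a ha => Finset.sum_congr rfl fun b hb => ?_
      have ha' : (a : ℝ) ≠ 0 := by
        have := (hmem a ha).1
        positivity
      have hb' : (b : ℝ) ≠ 0 := by
        have := (hmem b hb).1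
        positivity
      simp only [hc]
      rw [Nat.cast_mul, Real.log_mul ha' hb']
      have : cexp (-(I * s * ((Real.log a + Real.log b : ℝ) : ℂ))) =
          cexp (-(I * s * Real.log a)) * cexp (-(I * s * Real.log b)) := by
        rw [← Complex.exp_add]; congr 1; push_cast; ring
      rw [this]; ring
    rw [h1, norm_mul]
    ring
  simp_rw [hsq]
  have h1 := mv (S ×ˢ S) c (fun p => p.1 * p.2) (N ^ 2) (fun p hp => by
    have hp' := Finset.mem_product.1 hp
    have ha := hmem _ hp'.1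
    have hb := hmem _ hp'.2
    constructor
    · exact Nat.mul_pos (by omega) (by omega)
    · rw [sq]; exact Nat.mul_le_mul ha.2 hb.2) T
  have h2 := (abs_le.1 h1).2
  -- bounds of the coefficients
  have hdb : ∀ a ∈ S, ‖d a‖ ≤ C0 / L * (v a / Real.sqrt a) := by
    intro a ha
    refine (hd a (hmem a ha).1).trans (le_of_eq ?_)
    have : Real.sqrt a ≠ 0 := by
      have := (hmem a ha).1
      positivity
    simp only [hv]
    field_simp
  have hda : ∀ a ∈ S, ‖d a‖ ≤ 2 * C0 := by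
    intro a ha
    refine (hdb a ha).trans ?_
    have ha1 : (1 : ℝ) ≤ a := by exact_mod_cast (le_trans (by norm_num) (hmem a ha).1)
    have h3 : 1 ≤ Real.sqrt a := by rw [Real.one_le_sqrt]; exact ha1
    have h4 : v a / Real.sqrt a ≤ 2 * L := by
      rw [div_le_iff₀ (by linarith)]
      have h5 : v a ≤ 2 * L := (vm_le (hmem a ha).2 (le_trans (by norm_num) (hmem a ha).1)).trans
        hlogN
      nlinarith
    calc C0 / L * (v a / Real.sqrt a) ≤ C0 / L * (2 * L) :=
          mul_le_mul_of_nonneg_left h4 (by positivity)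
      _ = 2 * C0 := by field_simp
  -- off diagonal
  have hsumc : ∑ p ∈ S ×ˢ S, ‖c p‖ ≤ (2 * C0 * N) ^ 2 := by
    have h3 : ∑ p ∈ S ×ˢ S, ‖c p‖ = (∑ a ∈ S, ‖d a‖) * (∑ a ∈ S, ‖d a‖) := by
      rw [Finset.sum_mul_sum, Finset.sum_product]
      refine Finset.sum_congr rfl fun a _ => Finset.sum_congr rfl fun b _ => ?_
      simp only [hc, norm_mul]
    have h4 : ∑ a ∈ S, ‖d a‖ ≤ 2 * C0 * N := by
      calc ∑ a ∈ S, ‖d a‖ ≤ ∑ a ∈ S, 2 * C0 := Finset.sum_le_sum hda
        _ = S.card * (2 * C0) := by rw [Finset.sum_const, nsmul_eq_mul]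
        _ ≤ N * (2 * C0) := by
          apply mul_le_mul_of_nonneg_right _ (by positivity)
          rw [hS, Nat.card_Icc]
          have : N + 1 - 2 ≤ N := by omega
          exact_mod_cast this
        _ = _ := by ring
    have h5 : 0 ≤ ∑ a ∈ S, ‖d a‖ := Finset.sum_nonneg fun _ _ => norm_nonneg _
    rw [h3, sq]
    exact mul_le_mul h4 h4 h5 (h5.trans h4)
  have hoff : 2 * ((N ^ 2 : ℕ) : ℝ) * (∑ p ∈ S ×ˢ S, ‖c p‖) ^ 2 ≤ 32 * C0 ^ 4 * T := by
    have h3 : 0 ≤ ∑ p ∈ S ×ˢ S, ‖c p‖ := Finset.sum_nonneg fun _ _ => norm_nonneg _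
    have h4 : (∑ p ∈ S ×ˢ S, ‖c p‖) ^ 2 ≤ ((2 * C0 * N) ^ 2) ^ 2 := pow_le_pow_left₀ h3 hsumc 2
    have h5 : (N : ℝ) ^ 6 ≤ T := by
      have h6 : (N : ℝ) ^ 6 ≤ (Real.exp (2 * L)) ^ 6 := pow_le_pow_left₀ (by positivity) hNL 6
      have h7 : (Real.exp (2 * L)) ^ 6 = Real.exp (12 * L) := by
        rw [← Real.exp_nat_mul]; congr 1; push_cast; ring
      have h8 : Real.exp (12 * L) ≤ Real.exp (20 * L) := Real.exp_le_exp.2 (by linarith)
      linarith
    calc 2 * ((N ^ 2 : ℕ) : ℝ) * (∑ p ∈ S ×ˢ S, ‖c p‖) ^ 2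
        ≤ 2 * ((N ^ 2 : ℕ) : ℝ) * ((2 * C0 * N) ^ 2) ^ 2 :=
          mul_le_mul_of_nonneg_left h4 (by positivity)
      _ = 32 * C0 ^ 4 * (N : ℝ) ^ 6 := by push_cast; ring
      _ ≤ _ := mul_le_mul_of_nonneg_left h5 (by positivity)
  -- diagonal
  have hsumv : ∑ a ∈ S, v a / a ≤ 8 * L := by
    have h3 := mertens_upper N hN
    have h4 : ∑ a ∈ S, v a / a ≤ ∑ a ∈ Finset.Icc 1 N, v a / a := by
      apply Finset.sum_le_sum_of_subset_of_nonneg
      · exact Finset.Icc_subset_Icc (by norm_num) le_rfl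
      · intro a _ _
        exact div_nonneg (hv0 a) (Nat.cast_nonneg a)
    simp only [hv] at h4 ⊢
    linarith
  have hdiag : ∑ p ∈ S ×ˢ S, ∑ q ∈ S ×ˢ S,
      (if p.1 * p.2 = q.1 * q.2 then (c p * conj (c q)).re else 0) ≤ 512 * C0 ^ 4 := by
    have h3 : ∀ p ∈ S ×ˢ S, ∑ q ∈ S ×ˢ S,
        (if p.1 * p.2 = q.1 * q.2 then (c p * conj (c q)).re else 0) ≤
        (C0 / L) ^ 4 * (8 * L ^ 2) * (v p.1 / p.1 * (v p.2 / p.2)) := by
      intro p hp
      have hp' := Finset.mem_product.1 hp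
      have ha := hmem _ hp'.1
      have hb := hmem _ hp'.2
      have ha0 : (0 : ℝ) < p.1 := by
        have := ha.1
        positivity
      have hb0 : (0 : ℝ) < p.2 := by
        have := hb.1
        positivity
      have hcb : ∀ q ∈ S ×ˢ S, ‖c q‖ ≤ (C0 / L) ^ 2 * (v q.1 * v q.2) /
          Real.sqrt ((q.1 * q.2 : ℕ) : ℝ) := by
        intro q hq
        have hq' := Finset.mem_product.1 hq
        have h5 := hdb _ hq'.1
        have h6 := hdb _ hq'.2
        simp only [hc, norm_mul]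
        refine (mul_le_mul h5 h6 (norm_nonneg _) ((norm_nonneg _).trans h5)).trans (le_of_eq ?_)
        push_cast
        rw [Real.sqrt_mul (Nat.cast_nonneg _)]
        have e1 : Real.sqrt q.1 ≠ 0 := by
          have := (hmem _ hq'.1).1
          positivity
        have e2 : Real.sqrt q.2 ≠ 0 := by
          have := (hmem _ hq'.2).1
          positivity
        field_simp
      have hk : (1 : ℕ) ≤ p.1 * p.2 := Nat.mul_pos (by omega) (by omega)
      have hlogk : Real.log ((p.1 * p.2 : ℕ) : ℝ) ≤ 4 * L := by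
        push_cast
        rw [Real.log_mul ha0.ne' hb0.ne']
        have e1 : Real.log p.1 ≤ Real.log N := Real.log_le_log ha0 (by exact_mod_cast ha.2)
        have e2 : Real.log p.2 ≤ Real.log N := Real.log_le_log hb0 (by exact_mod_cast hb.2)
        linarith
      rw [← Finset.sum_filter]
      have hfil : (S ×ˢ S).filter (fun q => p.1 * p.2 = q.1 * q.2) =
          (S ×ˢ S).filter (fun q => q.1 * q.2 = p.1 * p.2) := by
        ext q
        simp only [Finset.mem_filter]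
        constructor
        · rintro ⟨h, h'⟩; exact ⟨h, h'.symm⟩
        · rintro ⟨h, h'⟩; exact ⟨h, h'.symm⟩
      rw [hfil]
      have hk0 : (0 : ℝ) < ((p.1 * p.2 : ℕ) : ℝ) := by exact_mod_cast hk
      have hvp : 0 ≤ v p.1 * v p.2 := mul_nonneg (hv0 _) (hv0 _)
      calc ∑ q ∈ (S ×ˢ S).filter (fun q => q.1 * q.2 = p.1 * p.2), (c p * conj (c q)).re
          ≤ ∑ q ∈ (S ×ˢ S).filter (fun q => q.1 * q.2 = p.1 * p.2),
            (C0 / L) ^ 4 * (v p.1 * v p.2) / ((p.1 * p.2 : ℕ) : ℝ) * (2 * L) * v q.1 := by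
            refine Finset.sum_le_sum fun q hq => ?_
            obtain ⟨hq1, hq2⟩ := Finset.mem_filter.1 hq
            have hq' := Finset.mem_product.1 hq1
            refine (Complex.re_le_norm _).trans ?_
            rw [norm_mul, Complex.norm_conj]
            have h5 := hcb p hp
            have h6 := hcb q hq1
            rw [hq2] at h6
            have h7 : v q.2 ≤ 2 * L := (vm_le (hmem _ hq'.2).2
              (le_trans (by norm_num) (hmem _ hq'.2).1)).trans hlogN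
            have h8 := mul_le_mul h5 h6 (norm_nonneg _) ((norm_nonneg _).trans h5)
            refine h8.trans ?_
            have h9 : (C0 / L) ^ 2 * (v p.1 * v p.2) / Real.sqrt ((p.1 * p.2 : ℕ) : ℝ) *
                ((C0 / L) ^ 2 * (v q.1 * v q.2) / Real.sqrt ((p.1 * p.2 : ℕ) : ℝ)) =
                (C0 / L) ^ 4 * (v p.1 * v p.2) / ((p.1 * p.2 : ℕ) : ℝ) * (v q.1 * v q.2) := by
              have e3 : Real.sqrt ((p.1 * p.2 : ℕ) : ℝ) * Real.sqrt ((p.1 * p.2 : ℕ) : ℝ) =
                  ((p.1 * p.2 : ℕ) : ℝ) := Real.mul_self_sqrt hk0.le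
              rw [div_mul_div_comm, e3]
              ring
            rw [h9, mul_assoc _ (2 * L) (v q.1)]
            apply mul_le_mul_of_nonneg_left _ (by positivity)
            rw [mul_comm (2 * L)]
            exact mul_le_mul_of_nonneg_left h7 (hv0 _)
        _ = (C0 / L) ^ 4 * (v p.1 * v p.2) / ((p.1 * p.2 : ℕ) : ℝ) * (2 * L) *
            ∑ q ∈ (S ×ˢ S).filter (fun q => q.1 * q.2 = p.1 * p.2), v q.1 := by
            rw [Finset.mul_sum]
        _ ≤ (C0 / L) ^ 4 * (v p.1 * v p.2) / ((p.1 * p.2 : ℕ) : ℝ) * (2 * L) * (4 * L) := by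
            apply mul_le_mul_of_nonneg_left _ (by positivity)
            exact (fact_sum S _ hk).trans hlogk
        _ = (C0 / L) ^ 4 * (8 * L ^ 2) * (v p.1 / p.1 * (v p.2 / p.2)) := by
            push_cast
            field_simp
            ring
    refine (Finset.sum_le_sum h3).trans ?_
    rw [← Finset.mul_sum]
    have h4 : ∑ p ∈ S ×ˢ S, (v p.1 / p.1 * (v p.2 / p.2)) =
        (∑ a ∈ S, v a / a) * (∑ a ∈ S, v a / a) := by
      rw [Finset.sum_mul_sum, Finset.sum_product]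
    rw [h4]
    have h5 : 0 ≤ ∑ a ∈ S, v a / a := Finset.sum_nonneg fun a _ =>
      div_nonneg (hv0 a) (Nat.cast_nonneg a)
    have h6 : (∑ a ∈ S, v a / a) * (∑ a ∈ S, v a / a) ≤ (8 * L) * (8 * L) :=
      mul_le_mul hsumv hsumv h5 (by positivity)
    calc (C0 / L) ^ 4 * (8 * L ^ 2) * ((∑ a ∈ S, v a / a) * (∑ a ∈ S, v a / a))
        ≤ (C0 / L) ^ 4 * (8 * L ^ 2) * ((8 * L) * (8 * L)) :=
          mul_le_mul_of_nonneg_left h6 (by positivity)
      _ = 512 * C0 ^ 4 := by field_simp; ring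
  have h3 := mul_le_mul_of_nonneg_left hdiag hT0.le
  have h2' : (∫ s in T..(2 * T),
      ‖∑ p ∈ S ×ˢ S, c p * cexp (-(I * s * Real.log ((p.1 * p.2 : ℕ) : ℝ)))‖ ^ 2) -
      T * ∑ p ∈ S ×ˢ S, ∑ q ∈ S ×ˢ S,
        (if p.1 * p.2 = q.1 * q.2 then (c p * conj (c q)).re else 0) ≤
      2 * ((N ^ 2 : ℕ) : ℝ) * (∑ p ∈ S ×ˢ S, ‖c p‖) ^ 2 := h2
  nlinarith

/-! ### Conclusion -/

theorem holder {x r : ℝ} (hr : 0 < r) : x ^ 2 / r - x ^ 4 / r ^ 3 ≤ |x| := by
  have h1 : ∀ y : ℝ, 0 ≤ y → y ^ 2 - y ^ 4 ≤ y := by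
    intro y hy
    have h2 : 0 ≤ 1 - y + y ^ 3 := by
      rcases le_total y 1 with h | h
      · have := pow_nonneg hy 3
        linarith
      · nlinarith [mul_nonneg hy (sub_nonneg.2 h), mul_nonneg hy hy]
    nlinarith [mul_nonneg hy h2]
  have h2 := h1 (|x| / r) (by positivity)
  have h3 : r * ((|x| / r) ^ 2 - (|x| / r) ^ 4) = x ^ 2 / r - x ^ 4 / r ^ 3 := by
    rw [div_pow, div_pow, sq_abs, show |x| ^ 4 = x ^ 4 by
      rw [show (4 : ℕ) = 2 * 2 by norm_num, pow_mul, pow_mul, sq_abs]]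
    field_simp
  have h4 : r * (|x| / r) = |x| := by field_simp
  calc x ^ 2 / r - x ^ 4 / r ^ 3 = r * ((|x| / r) ^ 2 - (|x| / r) ^ 4) := h3.symm
    _ ≤ r * (|x| / r) := mul_le_mul_of_nonneg_left h2 hr.le
    _ = |x| := h4

theorem t_MOM : P_MOM := by
  intro C0 c0 hC0 hc0
  set C2 : ℝ := 4360 * C0 ^ 4 with hC2
  have hC2p : 0 < C2 := by positivity
  set r : ℝ := Real.sqrt (8 * C2 / c0) with hr
  have hr0 : 0 < r := Real.sqrt_pos.2 (by positivity)
  have hr2 : r ^ 2 = 8 * C2 / c0 := Real.sq_sqrt (by positivity)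
  refine ⟨c0 / (8 * r), 1, by positivity, le_rfl, ?_⟩
  intro Λ T N d hΛ hT hN hNΛ hd1 hd1' hd hsum
  have hN1 : (1 : ℝ) ≤ N := by exact_mod_cast hN
  have hT0 : 0 < T := lt_of_lt_of_le (Real.exp_pos _) hT
  set P : ℝ → ℂ := fun s => ∑ n ∈ Finset.Icc 1 N, d n * cexp (-(I * s * Real.log n)) with hP
  set Q : ℝ → ℂ := fun s => ∑ n ∈ Finset.Icc 2 N, d n * cexp (-(I * s * Real.log n)) with hQ
  have hPc : Continuous P := cont_sum _ d fun n => Real.log n
  have hQc : Continuous Q := cont_sum _ d fun n => Real.log n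
  have hPQ : ∀ s, P s = d 1 + Q s := by
    intro s
    simp only [hP, hQ]
    rw [← Finset.add_sum_Ioc_eq_sum_Icc hN]
    congr 1
    simp
  -- second moment
  have h12 : 12 * (N : ℝ) ^ 2 ≤ T := by
    have h1 : (N : ℝ) ^ 2 ≤ (Real.exp (2 * Λ)) ^ 2 := pow_le_pow_left₀ (by positivity) hNΛ 2
    have h2 : (Real.exp (2 * Λ)) ^ 2 = Real.exp (4 * Λ) := by
      rw [← Real.exp_nat_mul]; congr 1; push_cast; ring
    have h3 : Real.exp (20 * Λ) = Real.exp (16 * Λ) * Real.exp (4 * Λ) := by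
      rw [← Real.exp_add]; congr 1; ring
    have h4 : (12 : ℝ) ≤ Real.exp (16 * Λ) := by
      have := Real.add_one_le_exp (16 * Λ)
      linarith
    have h5 : 12 * Real.exp (4 * Λ) ≤ Real.exp (16 * Λ) * Real.exp (4 * Λ) :=
      mul_le_mul_of_nonneg_right h4 (Real.exp_pos _).le
    linarith
  have hsec : c0 * T / 4 ≤ ∫ s in T..(2 * T), (P s).re ^ 2 := by
    refine le_trans ?_ (second N hN d hd1 T h12)
    have := mul_le_mul_of_nonneg_left hsum (by positivity : 0 ≤ T / 4)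
    linarith
  -- fourth moment
  have hfou := fourth N hN d C0 Λ T hC0 hΛ hNΛ hT hd
  have hfour : ∫ s in T..(2 * T), (P s).re ^ 4 ≤ C2 * T := by
    have h1 : ∀ s, (P s).re ^ 4 ≤ 8 * (C0 ^ 4 + ‖Q s‖ ^ 4) := by
      intro s
      have h2 : |(P s).re| ≤ C0 + ‖Q s‖ := by
        refine (Complex.abs_re_le_norm _).trans ?_
        rw [hPQ]
        exact (norm_add_le _ _).trans (by linarith)
      have h3 : (P s).re ^ 4 = |(P s).re| ^ 4 := by
        rw [show (4 : ℕ) = 2 * 2 by norm_num, pow_mul, pow_mul, sq_abs]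
      rw [h3]
      refine (pow_le_pow_left₀ (abs_nonneg _) h2 4).trans ?_
      have h4 := add_pow_le (by linarith : (0:ℝ) ≤ C0) (norm_nonneg (Q s)) 4
      norm_num at h4
      exact h4
    have hle : T ≤ 2 * T := by linarith
    have h2 : ∫ s in T..(2 * T), (P s).re ^ 4 ≤ ∫ s in T..(2 * T), 8 * (C0 ^ 4 + ‖Q s‖ ^ 4) := by
      apply intervalIntegral.integral_mono_on hle
      · exact ((Complex.continuous_re.comp hPc).pow 4).intervalIntegrable _ _
      · exact (continuous_const.mul (continuous_const.add (hQc.norm.pow 4))).intervalIntegrable _ _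
      · intro s _
        exact h1 s
    refine h2.trans ?_
    rw [intervalIntegral.integral_const_mul, intervalIntegral.integral_add,
      intervalIntegral.integral_const, smul_eq_mul]
    · have h3 : (∫ s in T..(2 * T), ‖Q s‖ ^ 4) ≤ 544 * C0 ^ 4 * T := hfou
      rw [hC2]
      nlinarith
    · exact continuous_const.intervalIntegrable _ _
    · exact (hQc.norm.pow 4).intervalIntegrable _ _
  -- conclusion
  have hle : T ≤ 2 * T := by linarith
  have hrec : Continuous fun s => (P s).re := Complex.continuous_re.comp hPc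
  have hfin : ∫ s in T..(2 * T), ((P s).re ^ 2 / r - (P s).re ^ 4 / r ^ 3) ≤
      ∫ s in T..(2 * T), |(P s).re| := by
    apply intervalIntegral.integral_mono_on hle
    · exact (((hrec.pow 2).div_const _).sub ((hrec.pow 4).div_const _)).intervalIntegrable _ _
    · exact hrec.abs.intervalIntegrable _ _
    · intro s _
      exact holder hr0
  have hI : ∫ s in T..(2 * T), ((P s).re ^ 2 / r - (P s).re ^ 4 / r ^ 3) =
      (∫ s in T..(2 * T), (P s).re ^ 2) / r - (∫ s in T..(2 * T), (P s).re ^ 4) / r ^ 3 := by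
    rw [intervalIntegral.integral_sub, intervalIntegral.integral_div,
      intervalIntegral.integral_div]
    · exact ((hrec.pow 2).div_const _).intervalIntegrable _ _
    · exact ((hrec.pow 4).div_const _).intervalIntegrable _ _
  rw [hI] at hfin
  refine le_trans ?_ hfin
  have e1 : c0 * T / 4 / r ≤ (∫ s in T..(2 * T), (P s).re ^ 2) / r :=
    div_le_div_of_nonneg_right hsec hr0.le
  have e2 : (∫ s in T..(2 * T), (P s).re ^ 4) / r ^ 3 ≤ C2 * T / r ^ 3 :=
    div_le_div_of_nonneg_right hfour (by positivity)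
  have e3 : C2 * T / r ^ 3 = c0 * T / (8 * r) := by
    have h1 : C2 = c0 * r ^ 2 / 8 := by
      rw [hr2]; field_simp
    rw [h1]
    field_simp
  have e4 : c0 * T / 4 / r = 2 * (c0 * T / (8 * r)) := by field_simp; ring
  have e5 : c0 / (8 * r) * T = c0 * T / (8 * r) := by ring
  rw [e5]
  linarith

end Pool.Agent.Y876.ND
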